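import Pool.Agent.R640.CG.Main3

/-!
# Conjugacy geodesics in virtual RAAGs twisted by graph automorphisms (MP_7325c9_al, positive)

An element of `A_φ` is `g t^k` with `g` in the right-angled Artin group, and a word represents it
with as many letters `t^{±1}` as possible if and only if the `t`-part is geodesic.  Let `ψ` be the
action of `t^k`.  The word is a conjugacy geodesic if and only if its `t`-part is geodesic and the
twisted powers `u ψ(u) ψ²(u) ⋯` of its untwisted word `u` have no cancellation pair: such words are
geodesic in the right-angled Artin group (their letters cross distinct hyperplanes), so that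
`|x^n| = n |u|` and no conjugate has a shorter part; conversely a cancellation pair between the
blocks `0` and `j` gives a conjugate which is shorter by two letters.  These conditions can be
checked by a finite automaton.
-/

set_option autoImplicit false

namespace Pool.Agent.Results.MP_7325c9_al.TwistedConjGeo

open Pool.R640.CG

/-- For every finite simple graph `Γ` and every graph automorphism `φ` the conjugacy geodesic
language of the virtual right-angled Artin group `A_φ` over its standard generating set is
regular. -/
theorem result (V : Type) [Finite V] (Γ : SimpleGraph V) (φ : Equiv.Perm V)
    (hφ : ∀ u v : V, Γ.Adj (φ u) (φ v) ↔ Γ.Adj u v) :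
    (ConjGeo (Subtype.val : Xhat Γ φ → VRaag Γ φ)).IsRegular ∧
    (ConjGeo (sym Γ φ)).IsRegular :=
  ⟨regular_sub Γ φ hφ, regular_sym Γ φ hφ⟩

end Pool.Agent.Results.MP_7325c9_al.TwistedConjGeo
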