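import Mathlib
import Pool.Agent.R508.CGreg

set_option autoImplicit false

/-!
# MP_7325c9_al: conjugacy geodesics in virtual RAAGs twisted by graph automorphisms

For every finite simple graph `Γ` and every graph automorphism `φ`, the language
`ConjGeo(A_φ, X̂)` is regular.  (Proof by helper651, formalised by helper508.)
-/

namespace Pool.Agent.Results.MP_7325c9_al.TwistedRaagConjGeoRegular

open Pool.Agent.R508.CG

/-- word length of `g` over the generating set `Y` -/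
noncomputable def wlen {G : Type} [Group G] (Y : Set G) (g : G) : ℕ :=
  sInf {n | ∃ w : List Y, w.length = n ∧ (w.map Subtype.val).prod = g}

/-- the conjugacy geodesic language: words over `Y` whose length is the minimum of the word
lengths of the elements conjugate to the element they represent -/
def ConjGeo {G : Type} [Group G] (Y : Set G) : Language Y :=
  {w | w.length = sInf {n | ∃ h : G, IsConj (w.map Subtype.val).prod h ∧ wlen Y h = n}}

variable {V : Type} (Γ : SimpleGraph V) (φ : Γ ≃g Γ)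

/-- the group `A_φ = A_Γ ⋊ ⟨φ⟩` -/
abbrev Aphi : Type := AA Γ φ

/-- the generator `v` of the right-angled Artin group inside `A_φ` -/
def gen (v : V) : Aphi Γ φ := SemidirectProduct.inl (PresentedGroup.of v)

/-- the generator `t` (it acts as `t⁻¹ v t = φ v`) -/
def tt : Aphi Γ φ :=
  SemidirectProduct.inr ⟨φ⁻¹, (Subgroup.zpowers φ).inv_mem (Subgroup.mem_zpowers φ)⟩

/-- the standard generating set -/
def Xhat : Set (Aphi Γ φ) :=
  {x | ∃ v, x = gen Γ φ v ∨ x = (gen Γ φ v)⁻¹} ∪ {tt Γ φ, (tt Γ φ)⁻¹}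

theorem ev_true (v : V) : ev Γ φ (Sum.inl (v, true)) = gen Γ φ v := by
  simp [ev, val, gen]

theorem ev_false (v : V) : ev Γ φ (Sum.inl (v, false)) = (gen Γ φ v)⁻¹ := by
  simp [ev, val, gen]

theorem ev_t : ev Γ φ (Sum.inr true) = tt Γ φ := by
  simp [ev, tb, tt]

theorem ev_ti : ev Γ φ (Sum.inr false) = (tt Γ φ)⁻¹ := by
  unfold tt
  rw [← map_inv SemidirectProduct.inr]
  simp only [ev, tb]
  congr 1

theorem ev_mem (l : Lam V) : ev Γ φ l ∈ Xhat Γ φ := by
  rcases l with ⟨v, b⟩ | b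
  · cases b
    · exact Or.inl ⟨v, Or.inr (ev_false Γ φ v)⟩
    · exact Or.inl ⟨v, Or.inl (ev_true Γ φ v)⟩
  · cases b
    · exact Or.inr (Or.inr (ev_ti Γ φ))
    · exact Or.inr (Or.inl (ev_t Γ φ))

theorem lab_exists (y : Xhat Γ φ) : ∃ l : Lam V, ev Γ φ l = y := by
  obtain ⟨y, ⟨v, rfl | rfl⟩ | rfl | rfl⟩ := y
  · exact ⟨_, ev_true Γ φ v⟩
  · exact ⟨_, ev_false Γ φ v⟩
  · exact ⟨_, ev_t Γ φ⟩
  · exact ⟨_, ev_ti Γ φ⟩

/-- a label of a generator -/
noncomputable def lab (y : Xhat Γ φ) : Lam V := (lab_exists Γ φ y).choose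

theorem lab_spec (y : Xhat Γ φ) : ev Γ φ (lab Γ φ y) = y := (lab_exists Γ φ y).choose_spec

theorem lab_word (w : List (Xhat Γ φ)) :
    evw Γ φ (w.map (lab Γ φ)) = (w.map Subtype.val).prod := by
  unfold evw
  rw [List.map_map]
  congr 1
  refine List.map_congr_left fun y _ => ?_
  exact lab_spec Γ φ y

theorem word_lift (u : List (Lam V)) : ∃ w : List (Xhat Γ φ), w.length = u.length ∧
    (w.map Subtype.val).prod = evw Γ φ u := by
  refine ⟨u.map (fun l => ⟨ev Γ φ l, ev_mem Γ φ l⟩), by simp, ?_⟩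
  unfold evw
  rw [List.map_map]
  rfl

theorem words_gen (x : Aphi Γ φ) : ∃ u : List (Lam V), evw Γ φ u = x := by
  obtain ⟨w, hw⟩ := lval_surj Γ x.left
  obtain ⟨z, hz⟩ := z_exists Γ φ x.right
  refine ⟨stw w z, ?_⟩
  rw [stw_ev, hw, hz]
  exact SemidirectProduct.inl_left_mul_inr_right _

theorem wlen_le (u : List (Lam V)) : wlen (Xhat Γ φ) (evw Γ φ u) ≤ u.length := by
  obtain ⟨w, h1, h2⟩ := word_lift Γ φ u
  exact Nat.sInf_le ⟨w, h1, h2⟩

theorem wlen_attained (x : Aphi Γ φ) : ∃ u : List (Lam V), u.length = wlen (Xhat Γ φ) x ∧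
    evw Γ φ u = x := by
  have hne : {n | ∃ w : List (Xhat Γ φ), w.length = n ∧
      (w.map Subtype.val).prod = x}.Nonempty := by
    obtain ⟨u, hu⟩ := words_gen Γ φ x
    obtain ⟨w, h1, h2⟩ := word_lift Γ φ u
    exact ⟨_, w, rfl, h2.trans hu⟩
  obtain ⟨w, h1, h2⟩ := Nat.sInf_mem hne
  exact ⟨w.map (lab Γ φ), by rw [List.length_map]; exact h1, (lab_word Γ φ w).trans h2⟩

theorem conjGeo_iff (w : List (Xhat Γ φ)) :
    w ∈ ConjGeo (Xhat Γ φ) ↔ w.map (lab Γ φ) ∈ CGL Γ φ := by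
  have hx := lab_word Γ φ w
  set x := (w.map Subtype.val).prod with hxd
  have hne : {n | ∃ h : Aphi Γ φ, IsConj x h ∧ wlen (Xhat Γ φ) h = n}.Nonempty :=
    ⟨_, x, IsConj.refl x, rfl⟩
  have hle : ∀ h : Aphi Γ φ, IsConj x h →
      sInf {n | ∃ h : Aphi Γ φ, IsConj x h ∧ wlen (Xhat Γ φ) h = n} ≤ wlen (Xhat Γ φ) h :=
    fun h hh => Nat.sInf_le ⟨h, hh, rfl⟩
  constructor
  · intro hw u hu
    have h1 : w.length = sInf {n | ∃ h : Aphi Γ φ, IsConj x h ∧ wlen (Xhat Γ φ) h = n} := hw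
    rw [List.length_map, h1]
    rw [hx] at hu
    exact (hle _ hu).trans (wlen_le Γ φ u)
  · intro hw
    show w.length = sInf {n | ∃ h : Aphi Γ φ, IsConj x h ∧ wlen (Xhat Γ φ) h = n}
    apply le_antisymm
    · obtain ⟨h, h1, h2⟩ := Nat.sInf_mem hne
      obtain ⟨u, h3, h4⟩ := wlen_attained Γ φ h
      rw [← h2, ← h3]
      have h5 := hw u (by rw [hx, h4]; exact h1)
      rwa [List.length_map] at h5
    · refine (hle x (IsConj.refl x)).trans ?_
      have h5 := wlen_le Γ φ (w.map (lab Γ φ))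
      rwa [List.length_map, hx] at h5

/-- The virtual right-angled Artin group `A_φ` (generated by the `v`, `v⁻¹`, `t`, `t⁻¹`, with
`t⁻¹ v t = φ(v)` and `t` of the order of `φ`) has regular conjugacy geodesic language. -/
theorem result (V : Type) [Finite V] (Γ : SimpleGraph V) (φ : Γ ≃g Γ) :
    (∀ v, (tt Γ φ)⁻¹ * gen Γ φ v * tt Γ φ = gen Γ φ (φ v)) ∧
    orderOf (tt Γ φ) = orderOf φ ∧
    Subgroup.closure (Xhat Γ φ) = ⊤ ∧
    (ConjGeo (Xhat Γ φ)).IsRegular := by
  classical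
  refine ⟨fun v => ?_, ?_, ?_, ?_⟩
  · have h := SemidirectProduct.inl_aut (φ := actC Γ φ)
      (⟨φ, Subgroup.mem_zpowers φ⟩ : CC Γ φ) (PresentedGroup.of v)
    have h1 : (tt Γ φ)⁻¹ = SemidirectProduct.inr (⟨φ, Subgroup.mem_zpowers φ⟩ : CC Γ φ) := by
      rw [← ev_ti]
      rfl
    have h2 : tt Γ φ = SemidirectProduct.inr (⟨φ, Subgroup.mem_zpowers φ⟩ : CC Γ φ)⁻¹ := by
      rw [map_inv SemidirectProduct.inr, ← h1, inv_inv]
    rw [h1, h2]
    unfold gen
    rw [← h]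
    exact congrArg SemidirectProduct.inl (rmap_of Γ φ v)
  · unfold tt
    rw [orderOf_injective _ SemidirectProduct.inr_injective, Subgroup.orderOf_mk, orderOf_inv]
  · rw [eq_top_iff]
    intro x _
    obtain ⟨u, rfl⟩ := words_gen Γ φ x
    unfold evw
    refine Subgroup.list_prod_mem _ fun y hy => ?_
    obtain ⟨l, _, rfl⟩ := List.mem_map.1 hy
    exact Subgroup.subset_closure (ev_mem Γ φ l)
  · have : Fintype V := Fintype.ofFinite V
    have : Finite (Γ ≃g Γ) :=
      Finite.of_injective (fun g : Γ ≃g Γ => (g : V → V)) (fun a b h => by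
        ext v
        exact congrFun h v)
    have : Fintype (CC Γ φ) := Fintype.ofFinite _
    set K := Finset.univ.sup (tau Γ φ) with hK
    have hK' : ∀ g, tau Γ φ g ≤ K := fun g => Finset.le_sup (Finset.mem_univ g)
    refine ⟨SS Γ φ K, inferInstance, (MM Γ φ K).comap (lab Γ φ), ?_⟩
    rw [DFA.accepts_comap]
    ext w
    rw [conjGeo_iff]
    exact accepts_eq Γ φ K hK' (w.map (lab Γ φ))

end Pool.Agent.Results.MP_7325c9_al.TwistedRaagConjGeoRegular
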